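import Mathlib
import Pool.Agent.R881.SC.Defs
import Pool.Agent.R881.SC.Final

set_option autoImplicit false

universe u

namespace Pool.Agent.Results.MP_d16342_al.Counterexample

open Pool.Agent.R881.SC

/-- For every cardinal `κ` there is a sequentially complete, locally minimal Hausdorff abelian group
`G` with `c(G) = {0}` whose completion satisfies `w(c(G̃)) ≥ κ`. Hence both Q1 and Q2 are false. -/
theorem result :
    (∀ κ : Cardinal.{u}, ∃ (G : Type u) (_ : AddCommGroup G) (_ : UniformSpace G)
      (_ : IsUniformAddGroup G) (_ : T2Space G), SeqComplete G ∧ LocallyMinimal G ∧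
        connectedComponent (0 : G) = {0} ∧
        κ ≤ weight (connectedComponent (0 : UniformSpace.Completion G))) ∧
    ¬ Q1.{u} ∧ ¬ Q2.{u} :=
  ⟨main, not_Q1, not_Q2⟩

end Pool.Agent.Results.MP_d16342_al.Counterexample
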