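import Mathlib
import Pool.Agent.R658.CN.Stmts2
import Pool.Agent.R658.SC.Stmts
import Pool.Agent.R658.SC.Main
import Pool.Agent.R658.SC.TL1
import Pool.Agent.R658.SC.TDiag
import Pool.Agent.R658.SC.TNull
import Pool.Agent.R658.SC.TLM
import Pool.Agent.R658.SC.TEss
import Pool.Agent.R658.SC.TW

/-!
# MP_d16342_al: connected components of sequentially complete locally minimal Abelian groups

`SeqComplete` and `LocallyMinimal` are defined in `Pool.Agent.R658.SC.Stmts`, `weight` and
`UlamMeasurable` in `Pool.Agent.R658.CN.Stmts2`.
A complete Hausdorff group `H` with a dense topological embedding `i : G → H` is the same thing as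
the completion of `G`.
-/

namespace Pool.Agent.Results.MP_d16342_al.TotallyDisconnected

open Topology R658.CN R658.SC

theorem result : ∃ (G H : Type) (_ : AddCommGroup G) (_ : TopologicalSpace G)
    (_ : IsTopologicalAddGroup G) (_ : T2Space G) (_ : AddCommGroup H) (_ : UniformSpace H)
    (_ : IsUniformAddGroup H) (_ : T2Space H) (_ : CompleteSpace H) (i : G →+ H),
    IsEmbedding i ∧ DenseRange i ∧ R658.SC.SeqComplete G ∧ R658.SC.LocallyMinimal G ∧
    ¬ UlamMeasurable (weight (connectedComponent (0 : G))) ∧
    weight (connectedComponent (0 : G)) ≠ weight (connectedComponent (0 : H)) ∧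
    i '' connectedComponent (0 : G) ≠ connectedComponent (0 : H) :=
  main taskL1 taskDiag taskNull taskLM taskEss taskW

end Pool.Agent.Results.MP_d16342_al.TotallyDisconnected
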